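import Pool.Agent.Q113.XV.Stm

/-!
# Project XV: the piece (4, 1) with a gain
-/

set_option autoImplicit false

namespace Pool.Agent.Q86.XV.P41s

open Pool.Agent.W205.K5 Pool.Agent.Q113.XV
open Finset

theorem rho41 (ρ : ℝ) (h0 : 0 < ρ) (h : ρ ^ 4 + (1 - ρ / 4) ^ 4 = 1) : 891 / 1000 ≤ ρ := by
  by_contra hlt
  push Not at hlt
  have h1 : ρ * ((257 / 256) * ρ ^ 3 - ρ ^ 2 / 16 + 3 * ρ / 8 - 1) = 0 := by
    linear_combination h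
  have h2 : (257 / 256) * ρ ^ 3 - ρ ^ 2 / 16 + 3 * ρ / 8 - 1 = 0 := by
    rcases mul_eq_zero.1 h1 with h3 | h3
    · exact absurd h3 h0.ne'
    · exact h3
  have h3 : ρ ^ 3 ≤ (891 / 1000) ^ 3 := pow_le_pow_left₀ h0.le hlt.le 3
  have h4 : - ρ ^ 2 / 16 + 3 * ρ / 8 ≤ - (891 / 1000) ^ 2 / 16 + 3 * (891 / 1000) / 8 := by
    nlinarith
  nlinarith

theorem t_P41s (_hL : S_LINE) (hC : S_CHORD) : PIECEs 4 1 := by
  refine ⟨1 / 200, by norm_num, ?_⟩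
  intro w g hS hg1 hg2 ρ h0 h1 hρ
  have hρ9 : 891 / 1000 ≤ ρ := rho41 ρ h0 (by exact_mod_cast hρ)
  have hch := hC 4 w g (by norm_num) hS 1 le_rfl (by norm_num) hg1 hg2
  have hK1 : KK 1 = 0 := by unfold KK; norm_num
  have hK2 : KK 2 = 1 / 2 := by unfold KK; norm_num
  have hK2' : KK (1 + 1) = 1 / 2 := hK2
  rw [hK1, hK2'] at hch
  rw [hK1] at hg1
  have hw0 : g 0 / 2 ≤ w 0 := by
    norm_num at hch
    linarith
  have a0 := hS.add 0 (by norm_num)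
  have a1 := hS.add 1 (by norm_num)
  have a2 := hS.add 2 (by norm_num)
  have j1 := hS.jen 1 (by norm_num)
  have j2 := hS.jen 2 (by norm_num)
  have j3 := hS.jen 3 (by norm_num)
  have hw4 := hS.wk
  norm_num at a0 a1 a2 j1 j2 j3
  have hT : Th 4 ρ (fun j => w (4 - j)) = (1 - ρ) ^ 4 + 4 * (1 - ρ) ^ 3 * ρ * w 3 +
      6 * (1 - ρ) ^ 2 * ρ ^ 2 * w 2 + 4 * (1 - ρ) * ρ ^ 3 * w 1 + ρ ^ 4 * w 0 := by
    unfold Th
    have c2 : Nat.choose 4 2 = 6 := rfl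
    simp only [Finset.sum_range_succ, Finset.sum_range_zero]
    norm_num [c2, hw4, Nat.choose]
  rw [hT]
  set s : ℝ := 1 - ρ with hs
  have hs0 : 0 ≤ s := by rw [hs]; linarith
  have hs9 : 8 * s ≤ ρ := by rw [hs]; linarith
  have e3 : 0 ≤ s ^ 3 * ρ * (g 2 + w 3 - 3) := by
    apply mul_nonneg (by positivity)
    linarith
  have e2 : 0 ≤ (6 * s ^ 2 * ρ ^ 2 - 4 * s ^ 3 * ρ) * (g 1 + w 2 - 2) := by
    apply mul_nonneg
    · have : 6 * s ^ 2 * ρ ^ 2 - 4 * s ^ 3 * ρ = s ^ 2 * ρ * (6 * ρ - 4 * s) := by ring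
      rw [this]
      apply mul_nonneg (by positivity)
      linarith
    · linarith
  have e2' : 0 ≤ s ^ 3 * ρ * (g 1 + w 2 - g 2) := by
    apply mul_nonneg (by positivity)
    linarith
  have e1 : 0 ≤ (4 * s * ρ ^ 3 - 6 * s ^ 2 * ρ ^ 2) * (g 0 + w 1 - 1) := by
    apply mul_nonneg
    · have : 4 * s * ρ ^ 3 - 6 * s ^ 2 * ρ ^ 2 = s * ρ ^ 2 * (4 * ρ - 6 * s) := by ring
      rw [this]
      apply mul_nonneg (by positivity)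
      linarith
    · linarith
  have e1' : 0 ≤ s ^ 2 * ρ ^ 2 * (g 0 + w 1 - g 1) := by
    apply mul_nonneg (by positivity)
    linarith
  have e0 : 0 ≤ ρ ^ 4 * (w 0 - g 0 / 2) := by
    apply mul_nonneg (by positivity)
    linarith
  have eg : 1 / 200 * g 0 ≤ ρ ^ 3 * (ρ / 2 - 4 * s) * g 0 := by
    apply mul_le_mul_of_nonneg_right _ hg1
    have e1 : (891 / 1000 : ℝ) ^ 3 ≤ ρ ^ 3 := pow_le_pow_left₀ (by norm_num) hρ9 3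
    have e4 : (891 / 1000 : ℝ) ^ 3 * (891 / 2000 - 4 * (109 / 1000)) ≤ ρ ^ 3 * (ρ / 2 - 4 * s) := by
      apply mul_le_mul e1
      · rw [hs]; linarith
      · norm_num
      · positivity
    refine le_trans ?_ e4
    norm_num
  have hsum : (s + ρ) ^ 4 = 1 := by rw [hs]; ring
  have hmin := min_le_left (g 0) (w (4 - 1) - (1 - 1 / ((4 : ℕ) : ℝ)))
  have hmin' : (1 / 200 : ℝ) * min (g 0) (w (4 - 1) - (1 - 1 / ((4 : ℕ) : ℝ))) ≤ 1 / 200 * g 0 :=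
    mul_le_mul_of_nonneg_left hmin (by norm_num)
  have hgoal : 1 - ρ ^ 4 + 1 / 200 * g 0 ≤ s ^ 4 + 4 * s ^ 3 * ρ * w 3 +
      6 * s ^ 2 * ρ ^ 2 * w 2 + 4 * s * ρ ^ 3 * w 1 + ρ ^ 4 * w 0 := by
    have key : s ^ 4 + 4 * s ^ 3 * ρ * w 3 +
      6 * s ^ 2 * ρ ^ 2 * w 2 + 4 * s * ρ ^ 3 * w 1 + ρ ^ 4 * w 0 - (1 - ρ ^ 4) =
      4 * (s ^ 3 * ρ * (g 2 + w 3 - 3)) + 4 * (s ^ 3 * ρ * (g 1 + w 2 - g 2)) +
      (6 * s ^ 2 * ρ ^ 2 - 4 * s ^ 3 * ρ) * (g 1 + w 2 - 2) +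
      6 * (s ^ 2 * ρ ^ 2 * (g 0 + w 1 - g 1)) +
      (4 * s * ρ ^ 3 - 6 * s ^ 2 * ρ ^ 2) * (g 0 + w 1 - 1) + ρ ^ 4 * (w 0 - g 0 / 2) +
      ρ ^ 3 * (ρ / 2 - 4 * s) * g 0 := by
      linear_combination hsum
    linarith
  linarith

end Pool.Agent.Q86.XV.P41s
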