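import Pool.Agent.Q113.XV.Stm

set_option autoImplicit false

namespace Pool.Agent.Q86.XV

open Pool.Agent.W205.K5 Pool.Agent.Q113.XV Finset

theorem pow_cmp (k r n : ℕ) (hk : k ≤ 5) (hr : 1 ≤ r) (h1 : r ≤ n) (h2 : n ≤ k) :
    (1 - 1 / (k : ℝ)) ^ (k - r) ≤ (1 - 1 / (n : ℝ)) ^ (n - r) := by
  have hk1 : 1 ≤ k := by omega
  interval_cases k <;> interval_cases n <;> interval_cases r <;> norm_num

theorem plast_gain (hL : S_LINE) (hE : S_LAST) (k : ℕ) (hk2 : 2 ≤ k) (hk5 : k ≤ 5) (κ : ℝ)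
    (hκ : 0 < κ) (hb : ∀ ρ : ℝ, 0 < ρ → ρ < 1 → ρ ^ k + (1 - ρ / k) ^ k = 1 →
      κ ≤ k * (1 - ρ) ^ (k - 1) * ρ) : PLASTs k := by
  refine ⟨κ, hκ, ?_⟩
  intro w g hS hg ρ h0 h1 hc
  have hkpos : (0 : ℝ) < k := by
    have : 0 < k := by omega
    exact_mod_cast this
  have hk1 : (0 : ℝ) ≤ 1 - 1 / (k : ℝ) := by
    have : (1 : ℝ) ≤ k := by
      have : 1 ≤ k := by omega
      exact_mod_cast this
    rw [sub_nonneg, div_le_one hkpos]
    exact this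
  have key : ∀ j ∈ range (k + 1), (1 - 1 / (k : ℝ)) ^ j ≤ w (k - j) := by
    intro j hj
    rw [mem_range] at hj
    rcases Nat.eq_zero_or_pos j with rfl | hjpos
    · simp [hS.wk]
    · rcases Nat.lt_or_ge j k with hjk | hjk
      · have h := hL k w g hS (k - j) 0 ((1 - 1 / (k : ℝ)) ^ j) (by omega) (by omega) le_rfl
          (pow_nonneg hk1 _) (by
            intro n hn1 hn2
            have h3 := pow_cmp k (k - j) n hk5 (by omega) hn1 hn2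
            have h4 : k - (k - j) = j := by omega
            rw [h4] at h3
            simpa using h3)
        simpa using h
      · have : j = k := by omega
        subst this
        simpa using hE j w g hk2 hS hg
  have h5 : (1 - ρ / k) ^ k = ∑ j ∈ range (k + 1),
      (k.choose j : ℝ) * (1 - ρ) ^ (k - j) * ρ ^ j * (1 - 1 / (k : ℝ)) ^ j := by
    have h6 : (1 - ρ / k) = ρ * (1 - 1 / (k : ℝ)) + (1 - ρ) := by ring
    rw [h6, add_pow]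
    apply sum_congr rfl
    intro j _
    rw [mul_pow]
    ring
  have h7 : 1 - ρ ^ k = (1 - ρ / k) ^ k := by linarith
  have hq : (0 : ℝ) ≤ 1 - ρ := by linarith
  have h1mem : 1 ∈ range (k + 1) := mem_range.2 (by omega)
  have hk1' := key 1 h1mem
  rw [pow_one] at hk1'
  have hsplit : Th k ρ (fun j => w (k - j)) - (1 - ρ / k) ^ k =
      ∑ j ∈ range (k + 1), (k.choose j : ℝ) * (1 - ρ) ^ (k - j) * ρ ^ j *
        (w (k - j) - (1 - 1 / (k : ℝ)) ^ j) := by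
    rw [h5]
    unfold Th
    rw [← sum_sub_distrib]
    exact sum_congr rfl fun j _ => by ring
  have hge : (k.choose 1 : ℝ) * (1 - ρ) ^ (k - 1) * ρ ^ 1 * (w (k - 1) - (1 - 1 / (k : ℝ)) ^ 1) ≤
      ∑ j ∈ range (k + 1), (k.choose j : ℝ) * (1 - ρ) ^ (k - j) * ρ ^ j *
        (w (k - j) - (1 - 1 / (k : ℝ)) ^ j) := by
    refine single_le_sum (f := fun j => (k.choose j : ℝ) * (1 - ρ) ^ (k - j) * ρ ^ j *
        (w (k - j) - (1 - 1 / (k : ℝ)) ^ j)) (fun j hj => ?_) h1mem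
    exact mul_nonneg (by positivity) (sub_nonneg.2 (key j hj))
  rw [Nat.choose_one_right, pow_one, pow_one] at hge
  have hb' := hb ρ h0 h1 hc
  have hd : 0 ≤ w (k - 1) - (1 - 1 / (k : ℝ)) := by linarith
  have e1 : κ * min (g 0) (w (k - 1) - (1 - 1 / (k : ℝ))) ≤ κ * (w (k - 1) - (1 - 1 / (k : ℝ))) :=
    mul_le_mul_of_nonneg_left (min_le_right _ _) hκ.le
  have e2 : κ * (w (k - 1) - (1 - 1 / (k : ℝ))) ≤
      k * (1 - ρ) ^ (k - 1) * ρ * (w (k - 1) - (1 - 1 / (k : ℝ))) :=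
    mul_le_mul_of_nonneg_right hb' hd
  linarith

/-- the crossing lies between one half and `19/20` -/
theorem rho3 (ρ : ℝ) (h0 : 0 < ρ) (h1 : ρ < 1) (h : ρ ^ 3 + (1 - ρ / 3) ^ 3 = 1) :
    1 / 2 ≤ ρ ∧ ρ ≤ 19 / 20 := by
  constructor
  · by_contra hlt
    push Not at hlt
    have h2 : ρ * (26 / 27 * ρ ^ 2 + ρ / 3 - 1) = 0 := by linear_combination h
    rcases mul_eq_zero.1 h2 with h3 | h3
    · exact h0.ne' h3
    · nlinarith
  · by_contra hlt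
    push Not at hlt
    have h2 : (19 / 20 : ℝ) ^ 3 ≤ ρ ^ 3 := pow_le_pow_left₀ (by norm_num) hlt.le 3
    have h3 : (2 / 3 : ℝ) ^ 3 ≤ (1 - ρ / 3) ^ 3 := pow_le_pow_left₀ (by norm_num) (by linarith) 3
    norm_num at h2 h3
    linarith

theorem rho4 (ρ : ℝ) (h0 : 0 < ρ) (h1 : ρ < 1) (h : ρ ^ 4 + (1 - ρ / 4) ^ 4 = 1) :
    1 / 2 ≤ ρ ∧ ρ ≤ 19 / 20 := by
  constructor
  · by_contra hlt
    push Not at hlt
    have h2 : ρ * ((257 / 256) * ρ ^ 3 - ρ ^ 2 / 16 + 3 * ρ / 8 - 1) = 0 := by linear_combination h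
    rcases mul_eq_zero.1 h2 with h3 | h3
    · exact h0.ne' h3
    · have h4 : ρ ^ 3 ≤ (1 / 2) ^ 3 := pow_le_pow_left₀ h0.le hlt.le 3
      nlinarith [sq_nonneg ρ]
  · by_contra hlt
    push Not at hlt
    have h2 : (19 / 20 : ℝ) ^ 4 ≤ ρ ^ 4 := pow_le_pow_left₀ (by norm_num) hlt.le 4
    have h3 : (3 / 4 : ℝ) ^ 4 ≤ (1 - ρ / 4) ^ 4 := pow_le_pow_left₀ (by norm_num) (by linarith) 4
    norm_num at h2 h3
    linarith

theorem rho5 (ρ : ℝ) (h0 : 0 < ρ) (h1 : ρ < 1) (h : ρ ^ 5 + (1 - ρ / 5) ^ 5 = 1) :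
    1 / 2 ≤ ρ ∧ ρ ≤ 19 / 20 := by
  constructor
  · by_contra hlt
    push Not at hlt
    have h2 : ρ * (3124 / 3125 * ρ ^ 4 + 1 / 125 * ρ ^ 3 + (2 / 5 * ρ - 2 / 25 * ρ ^ 2) - 1) = 0 := by
      linear_combination h
    rcases mul_eq_zero.1 h2 with h3 | h3
    · exact h0.ne' h3
    · have h4 : ρ ^ 3 ≤ (1 / 2) ^ 3 := pow_le_pow_left₀ h0.le hlt.le 3
      have h5 : ρ ^ 4 ≤ (1 / 2) ^ 4 := pow_le_pow_left₀ h0.le hlt.le 4
      nlinarith [sq_nonneg ρ]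
  · by_contra hlt
    push Not at hlt
    have h2 : (19 / 20 : ℝ) ^ 5 ≤ ρ ^ 5 := pow_le_pow_left₀ (by norm_num) hlt.le 5
    have h3 : (4 / 5 : ℝ) ^ 5 ≤ (1 - ρ / 5) ^ 5 := pow_le_pow_left₀ (by norm_num) (by linarith) 5
    norm_num at h2 h3
    linarith

theorem coef (k : ℕ) (ρ : ℝ) (h : 1 / 2 ≤ ρ ∧ ρ ≤ 19 / 20) :
    (k : ℝ) * (1 / 20) ^ (k - 1) * (1 / 2) ≤ k * (1 - ρ) ^ (k - 1) * ρ := by
  have h1 : (1 / 20 : ℝ) ^ (k - 1) ≤ (1 - ρ) ^ (k - 1) :=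
    pow_le_pow_left₀ (by norm_num) (by linarith [h.2]) _
  apply mul_le_mul _ h.1 (by norm_num) (by
    have : (0 : ℝ) ≤ 1 - ρ := by linarith [h.2]
    positivity)
  exact mul_le_mul_of_nonneg_left h1 (Nat.cast_nonneg k)

theorem t_PLASTs : S_LINE → S_LAST → (PLASTs 3 ∧ PLASTs 4 ∧ PLASTs 5) := by
  intro hL hE
  refine ⟨plast_gain hL hE 3 (by norm_num) (by norm_num) (((3 : ℕ) : ℝ) * (1 / 20) ^ (3 - 1) * (1 / 2))
      (by positivity) fun ρ h0 h1 h => ?_,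
    plast_gain hL hE 4 (by norm_num) (by norm_num) (((4 : ℕ) : ℝ) * (1 / 20) ^ (4 - 1) * (1 / 2))
      (by positivity) fun ρ h0 h1 h => ?_,
    plast_gain hL hE 5 (by norm_num) (by norm_num) (((5 : ℕ) : ℝ) * (1 / 20) ^ (5 - 1) * (1 / 2))
      (by positivity) fun ρ h0 h1 h => ?_⟩
  · exact coef 3 ρ (rho3 ρ h0 h1 (by exact_mod_cast h))
  · exact coef 4 ρ (rho4 ρ h0 h1 (by exact_mod_cast h))
  · exact coef 5 ρ (rho5 ρ h0 h1 (by exact_mod_cast h))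

end Pool.Agent.Q86.XV
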